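import Pool.Agent.K3h47.HY.Stm

/-! Assembly of the cases. -/

set_option autoImplicit false

namespace Pool.Agent.K3h33.HY

open Finset Pool.Agent.K3h47.HY

variable {n r M : ℕ} {e : Fin r → ℕ} {Λ : AddSubgroup (∀ i, ZMod (e i))}

lemma e_ne (hC : Cmb n r M e Λ) (i : Fin r) : e i ≠ 0 := by
  have := hC.two i
  omega

lemma fact0 (hC : Cmb n r M e Λ) {i : Fin r}
    (h : ∀ p : ℕ, p.Prime → p ∣ M → i ∈ Ful M e p) : e i = M := by
  refine Nat.dvd_antisymm (hC.dvd i) ?_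
  rw [← Nat.factorization_le_iff_dvd hC.M0 (e_ne hC i)]
  intro p
  by_cases hp : p.Prime
  · by_cases hpM : p ∣ M
    · have h1 := h p hp hpM
      rw [Ful, mem_filter] at h1
      exact (hp.pow_dvd_iff_le_factorization (e_ne hC i)).1 h1.2
    · rw [Nat.factorization_eq_zero_of_not_dvd hpM]
      exact Nat.zero_le _
  · rw [Nat.factorization_eq_zero_of_not_prime _ hp]
    exact Nat.zero_le _

lemma fact1 (hC : Cmb n r M e Λ) {i : Fin r} {p : ℕ} (hp : p.Prime) (hpM : p ∣ M)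
    (h : i ∈ Ful M e p) : p ∣ e i := by
  rw [Ful, mem_filter] at h
  have h1 : 1 ≤ M.factorization p := (hp.dvd_iff_one_le_factorization hC.M0).1 hpM
  exact (dvd_pow_self p (by omega)).trans h.2

lemma card_compl (p : ℕ) : (univ \ Ful M e p).card + (Ful M e p).card = r := by
  have h1 := card_sdiff_add_card_eq_card (subset_univ (Ful M e p))
  rw [h1, card_univ, Fintype.card_fin]

lemma mem_compl' {p : ℕ} {i : Fin r} : i ∈ univ \ Ful M e p ↔ i ∉ Ful M e p := by simp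

/-- all entries equal -/
lemma caseEq (hAVC : S_AVC) (hC : Cmb n r M e Λ) (hr : n + 3 ≤ r) (h0 : ∀ i, e i = M)
    (J : Finset (Fin r)) (x : ∀ i, ZMod (e i)) (hJ : J.card + 1 = n) : Big n M e Λ J x := by
  refine hAVC n r M e Λ hC J x hJ ?_
  have hM : 1 ≤ M := Nat.one_le_iff_ne_zero.2 hC.M0
  have e1 : ∀ i, M - M / e i = M - 1 := fun i => by
    rw [h0 i, Nat.div_self hM]
  simp only [e1, sum_const, smul_eq_mul]
  have h1 := card_sdiff_add_card_eq_card (subset_univ J)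
  rw [card_univ, Fintype.card_fin] at h1
  obtain ⟨m, rfl⟩ : ∃ m, M = m + 1 := ⟨M - 1, by omega⟩
  obtain ⟨c, hc⟩ : ∃ c, (univ \ J).card = c + 4 := ⟨(univ \ J).card - 4, by omega⟩
  rw [hc, ← hJ, Nat.add_sub_cancel]
  nlinarith [Nat.zero_le (c * m)]

/-- many coordinates -/
lemma caseA (hUP0 : S_UP0) (hUP1 : S_UP1) (hAVC : S_AVC) (hC : Cmb n r M e Λ)
    (hF : ∀ p : ℕ, p.Prime → p ∣ M → n + 2 ≤ (Ful M e p).card) (hn : 2 ≤ n) (hr : n + 4 ≤ r)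
    (J : Finset (Fin r)) (x : ∀ i, ZMod (e i)) (hJ : J.card + 1 = n) : Big n M e Λ J x := by
  by_cases hA1 : ∃ p : ℕ, p.Prime ∧ p ∣ M ∧ Ful M e p = univ
  · obtain ⟨p, hp, hpM, hu⟩ := hA1
    exact hUP0 n r M e Λ hC (by omega) hr p hp hpM hu J x hJ
  have hnf : ∀ p : ℕ, p.Prime → p ∣ M → ∃ i, i ∉ Ful M e p := by
    intro p hp hpM
    by_contra hcon
    push Not at hcon
    exact hA1 ⟨p, hp, hpM, eq_univ_of_forall hcon⟩
  by_cases hA2 : ∃ p : ℕ, p.Prime ∧ p ∣ M ∧ (n + 3 ≤ (Ful M e p).card ∨ p = 2)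
  · obtain ⟨p, hp, hpM, hu⟩ := hA2
    obtain ⟨i₀, hi₀⟩ := hnf p hp hpM
    refine hUP1 n r M e Λ hC p hp hpM (hF p hp hpM) i₀ J x hi₀ hJ ?_
    rcases hu with hu | hu
    · exact Or.inl hu
    · exact Or.inr (Or.inl hu)
  have hA2' : ∀ p : ℕ, p.Prime → p ∣ M → (Ful M e p).card = n + 2 ∧ p ≠ 2 := by
    intro p hp hpM
    have h1 := hF p hp hpM
    refine ⟨?_, fun h2 => hA2 ⟨p, hp, hpM, Or.inr h2⟩⟩
    by_contra h3
    exact hA2 ⟨p, hp, hpM, Or.inl (by omega)⟩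
  have h2M : ¬ 2 ∣ M := fun h => (hA2' 2 Nat.prime_two h).2 rfl
  have he3 : ∀ i, 3 ≤ e i := by
    intro i
    have h1 := hC.two i
    have h2 : e i ≠ 2 := fun h => h2M (h ▸ hC.dvd i)
    omega
  by_cases hA3 : ∃ p : ℕ, p.Prime ∧ p ∣ M ∧ ∃ j ∈ J, j ∉ Ful M e p
  · obtain ⟨p, hp, hpM, j, hj, hjF⟩ := hA3
    have h1 : 1 < (univ \ Ful M e p).card := by
      have := card_compl (M := M) (e := e) p
      have := (hA2' p hp hpM).1
      omega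
    obtain ⟨i₀, hi₀, hne⟩ := exists_mem_ne h1 j
    exact hUP1 n r M e Λ hC p hp hpM (hF p hp hpM) i₀ J x (mem_compl'.1 hi₀) hJ
      (Or.inr (Or.inr (Or.inl ⟨j, hj, hjF, hne.symm⟩)))
  by_cases hA4 : ∃ p : ℕ, p.Prime ∧ p ∣ M ∧ 5 ≤ p
  · obtain ⟨p, hp, hpM, h5⟩ := hA4
    obtain ⟨i₀, hi₀⟩ := hnf p hp hpM
    exact hUP1 n r M e Λ hC p hp hpM (hF p hp hpM) i₀ J x hi₀ hJ
      (Or.inr (Or.inr (Or.inr ⟨he3 i₀, h5⟩)))
  have h3 : ∀ p : ℕ, p.Prime → p ∣ M → p = 3 := by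
    intro p hp hpM
    have h1 : ¬ 5 ≤ p := fun h => hA4 ⟨p, hp, hpM, h⟩
    have h2 := (hA2' p hp hpM).2
    have h4 := hp.two_le
    have h5 : p ≠ 4 := by
      rintro rfl
      exact absurd hp (by decide)
    omega
  have hr0 : 0 < r := by omega
  have hM1 : M ≠ 1 := by
    intro h
    have h1 := hC.dvd ⟨0, hr0⟩
    have h2 := hC.two ⟨0, hr0⟩
    rw [h] at h1
    have := Nat.le_of_dvd one_pos h1
    omega
  obtain ⟨p, hp, hpM⟩ := Nat.exists_prime_and_dvd hM1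
  obtain rfl := h3 p hp hpM
  have hcard := (hA2' 3 hp hpM).1
  have hJF : J ⊆ Ful M e 3 := by
    intro j hj
    by_contra h
    exact hA3 ⟨3, hp, hpM, j, hj, h⟩
  have hFM : ∀ i ∈ Ful M e 3, e i = M := fun i hi =>
    fact0 hC fun q hq hqM => by rw [h3 q hq hqM]; exact hi
  obtain ⟨m, rfl⟩ := hpM
  have hm : 1 ≤ m := by
    rcases Nat.eq_zero_or_pos m with h | h
    · exact absurd (by rw [h]) hC.M0
    · exact h
  refine hAVC n r _ e Λ hC J x hJ ?_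
  have e1 : ∑ i ∈ J, (3 * m - 3 * m / e i) = J.card * (3 * m - 1) := by
    rw [sum_congr rfl fun i hi => by rw [hFM i (hJF hi), Nat.div_self (by omega)], sum_const,
      smul_eq_mul]
  have e2 : ∑ i ∈ univ \ J, (3 * m - 3 * m / e i) =
      ∑ i ∈ Ful (3 * m) e 3 \ J, (3 * m - 3 * m / e i) +
        ∑ i ∈ univ \ Ful (3 * m) e 3, (3 * m - 3 * m / e i) := by
    rw [← sum_union]
    · congr 1
      ext i
      simp only [mem_sdiff, mem_univ, true_and, mem_union]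
      constructor
      · intro h
        by_cases h1 : i ∈ Ful (3 * m) e 3
        · exact Or.inl ⟨h1, h⟩
        · exact Or.inr h1
      · rintro (h | h)
        · exact h.2
        · exact fun h1 => h (hJF h1)
    · rw [disjoint_left]
      intro i hi h
      exact (mem_sdiff.1 h).2 (mem_sdiff.1 hi).1
  have e3 : ∑ i ∈ Ful (3 * m) e 3 \ J, (3 * m - 3 * m / e i) = 3 * (3 * m - 1) := by
    have h1 : (Ful (3 * m) e 3 \ J).card = 3 := by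
      have := card_sdiff_add_card_eq_card hJF
      omega
    rw [sum_congr rfl fun i hi => by
      rw [hFM i (mem_sdiff.1 hi).1, Nat.div_self (by omega)], sum_const, smul_eq_mul, h1]
  have e4 : 2 * (2 * m) ≤ ∑ i ∈ univ \ Ful (3 * m) e 3, (3 * m - 3 * m / e i) := by
    have h1 : 2 ≤ (univ \ Ful (3 * m) e 3).card := by
      have := card_compl (M := 3 * m) (e := e) 3
      omega
    have h2 : (univ \ Ful (3 * m) e 3).card • (2 * m) ≤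
        ∑ i ∈ univ \ Ful (3 * m) e 3, (3 * m - 3 * m / e i) := by
      refine card_nsmul_le_sum _ _ _ fun i _ => ?_
      have h4 : 3 * m / e i ≤ m := by
        calc 3 * m / e i ≤ 3 * m / 3 := Nat.div_le_div_left (he3 i) (by norm_num)
          _ = m := by omega
      omega
    rw [smul_eq_mul] at h2
    exact (Nat.mul_le_mul_right _ h1).trans h2
  rw [e1, e2, e3]
  obtain ⟨c, hc⟩ : ∃ c, 3 * m = c + 1 := ⟨3 * m - 1, by omega⟩
  obtain ⟨k, hk⟩ : ∃ k, J.card = k := ⟨_, rfl⟩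
  rw [hk] at hJ ⊢
  have e5 : 3 * m - 1 = c := by omega
  rw [e5, ← hJ]
  have e6 : 2 * (k + 1 + 1) * (3 * m) = 2 * (k + 2) * (c + 1) := by rw [hc]
  have e7 : 2 * (k * c) + (3 * c + 4 * m) + 2 * (k + 3) > 2 * (k + 2) * (c + 1) := by
    have : 2 * (k + 2) * (c + 1) = 2 * (k * c) + 2 * k + 4 * c + 4 := by ring
    omega
  calc 2 * (k + 1 + 1) * (3 * m) = 2 * (k + 2) * (c + 1) := e6
    _ < 2 * (k * c) + (3 * c + 4 * m) + 2 * (k + 3) := e7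
    _ ≤ _ := by omega

/-- few coordinates -/
lemma caseB (hUP1 : S_UP1) (hSPJ : S_SPJ) (hSPK1 : S_SPK1) (hSPK2 : S_SPK2) (hSPK3 : S_SPK3)
    (hC : Cmb n r M e Λ) (hF : ∀ p : ℕ, p.Prime → p ∣ M → n + 2 ≤ (Ful M e p).card)
    (hn : 2 ≤ n) (hr : r = n + 3) (h0 : ∃ i, e i ≠ M)
    (J : Finset (Fin r)) (x : ∀ i, ZMod (e i)) (hJ : J.card + 1 = n) : Big n M e Λ J x := by
  have huniq : ∀ p : ℕ, p.Prime → p ∣ M → ∀ i j, i ∉ Ful M e p → j ∉ Ful M e p → i = j := by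
    intro p hp hpM i j hi hj
    have h1 : (univ \ Ful M e p).card ≤ 1 := by
      have := card_compl (M := M) (e := e) p
      have := hF p hp hpM
      omega
    exact card_le_one.1 h1 i (mem_compl'.2 hi) j (mem_compl'.2 hj)
  by_cases hB1 : 2 ∣ M ∧ ∃ i, i ∉ Ful M e 2
  · obtain ⟨h2, i₀, hi₀⟩ := hB1
    exact hUP1 n r M e Λ hC 2 Nat.prime_two h2 (hF 2 Nat.prime_two h2) i₀ J x hi₀ hJ
      (Or.inr (Or.inl rfl))
  have hodd : ∀ (p : ℕ) (i : Fin r), p ∣ M → i ∉ Ful M e p → p ≠ 2 := by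
    rintro p i hpM hi rfl
    exact hB1 ⟨hpM, i, hi⟩
  have hpair : ∀ (p₁ p₂ : ℕ) (j₁ j₂ : Fin r), p₁.Prime → p₂.Prime → p₁ ∣ M → p₂ ∣ M →
      j₁ ∉ Ful M e p₁ → j₂ ∉ Ful M e p₂ → j₁ ≠ j₂ → 5 ≤ p₁ → Big n M e Λ J x := by
    intro p₁ p₂ j₁ j₂ hp₁ hp₂ hd₁ hd₂ hj₁ hj₂ hne h5
    have h1 : j₁ ∈ Ful M e p₂ := by
      by_contra h
      exact hne (huniq p₂ hp₂ hd₂ j₁ j₂ h hj₂)
    have h2 : p₂ ≤ e j₁ := Nat.le_of_dvd (Nat.pos_of_ne_zero (e_ne hC j₁)) (fact1 hC hp₂ hd₂ h1)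
    have h3 : 3 ≤ p₂ := by
      have := hp₂.two_le
      have := hodd p₂ j₂ hd₂ hj₂
      omega
    exact hUP1 n r M e Λ hC p₁ hp₁ hd₁ (hF p₁ hp₁ hd₁) j₁ J x hj₁ hJ
      (Or.inr (Or.inr (Or.inr ⟨by omega, h5⟩)))
  by_cases hB2 : ∃ (p₁ p₂ : ℕ) (j₁ j₂ : Fin r), p₁.Prime ∧ p₂.Prime ∧ p₁ ∣ M ∧ p₂ ∣ M ∧
      j₁ ∉ Ful M e p₁ ∧ j₂ ∉ Ful M e p₂ ∧ j₁ ≠ j₂
  · obtain ⟨p₁, p₂, j₁, j₂, hp₁, hp₂, hd₁, hd₂, hj₁, hj₂, hne⟩ := hB2
    by_cases h5 : 5 ≤ p₁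
    · exact hpair p₁ p₂ j₁ j₂ hp₁ hp₂ hd₁ hd₂ hj₁ hj₂ hne h5
    by_cases h5' : 5 ≤ p₂
    · exact hpair p₂ p₁ j₂ j₁ hp₂ hp₁ hd₂ hd₁ hj₂ hj₁ hne.symm h5'
    · exfalso
      have a1 := hp₁.two_le
      have a2 := hp₂.two_le
      have a3 := hodd p₁ j₁ hd₁ hj₁
      have a4 := hodd p₂ j₂ hd₂ hj₂
      have a5 : p₁ ≠ 4 := by
        rintro rfl
        exact absurd hp₁ (by decide)
      have a6 : p₂ ≠ 4 := by
        rintro rfl
        exact absurd hp₂ (by decide)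
      have a7 : p₁ = p₂ := by omega
      subst a7
      exact hne (huniq p₁ hp₁ hd₁ j₁ j₂ hj₁ hj₂)
  obtain ⟨i₀, hi₀⟩ := h0
  have h1 : ∃ p : ℕ, p.Prime ∧ p ∣ M ∧ i₀ ∉ Ful M e p := by
    by_contra hcon
    push Not at hcon
    exact hi₀ (fact0 hC hcon)
  obtain ⟨p₀, hp₀, hd₀, hf₀⟩ := h1
  have hall : ∀ j, j ≠ i₀ → e j = M := by
    intro j hj
    refine fact0 hC fun q hq hqM => ?_
    by_contra h
    exact hB2 ⟨q, p₀, j, i₀, hq, hp₀, hqM, hd₀, h, hf₀, hj⟩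
  obtain ⟨ν, hν⟩ := hC.dvd i₀
  have hM0 := hC.M0
  have hν0 : ν ≠ 0 := by
    rintro rfl
    exact hM0 (by rw [hν, mul_zero])
  have hν1 : ν ≠ 1 := by
    rintro rfl
    exact hi₀ (by rw [hν, mul_one])
  have hν2 : ¬ 2 ∣ ν := by
    intro h2
    have h2M : 2 ∣ M := by
      rw [hν]
      exact h2.mul_left _
    have h3 : i₀ ∈ Ful M e 2 := by
      by_contra h
      exact hB1 ⟨h2M, i₀, h⟩
    rw [Ful, mem_filter] at h3
    have h4 : 2 ^ (M.factorization 2 + 1) ∣ M := by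
      rw [pow_succ]
      have h5 : 2 ^ M.factorization 2 * 2 ∣ e i₀ * ν := Nat.mul_dvd_mul h3.2 h2
      rwa [← hν] at h5
    exact Nat.pow_succ_factorization_not_dvd hM0 Nat.prime_two h4
  have hν3 : 3 ≤ ν := by
    have : ν ≠ 2 := by
      rintro rfl
      exact hν2 (dvd_refl 2)
    omega
  by_cases hiJ : i₀ ∈ J
  · exact hSPJ n r M e Λ hC hr i₀ ν hν (by omega) hall J x hJ hiJ
  by_cases h3 : ν = 3
  · subst h3
    exact hSPK3 n r M e Λ hC hn hr i₀ (by rw [hν, mul_comm]) hall J x hJ hiJ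
  by_cases h2 : e i₀ = 2
  · exact hSPK2 n r M e Λ hC hn hr i₀ ν (by rw [hν, h2]) h2 hall J x hJ hiJ
  · have := hC.two i₀
    exact hSPK1 n r M e Λ hC hr i₀ ν hν (by omega) (by omega) hall J x hJ hiJ

theorem t_ALL : S_UP0 → S_UP1 → S_AVC → S_SPJ → S_SPK1 → S_SPK2 → S_SPK3 → S_ALL := by
  intro hUP0 hUP1 hAVC hSPJ hSPK1 hSPK2 hSPK3 n r M e Λ hC hF hn hr J x hJ
  by_cases h0 : ∀ i, e i = M
  · exact caseEq hAVC hC hr h0 J x hJ
  · push Not at h0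
    by_cases h4 : n + 4 ≤ r
    · exact caseA hUP0 hUP1 hAVC hC hF hn h4 J x hJ
    · exact caseB hUP1 hSPJ hSPK1 hSPK2 hSPK3 hC hF hn (by omega) h0 J x hJ

end Pool.Agent.K3h33.HY
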